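import Pool.Agent.Lib.MP_fed0c4_co.U.Main

open Pool.Agent.Lib.MP_fed0c4_co

namespace Pool.Agent.Results.MP_fed0c4_co.Uncomputable

/-- For every root degree `d ≥ 3`, the function `M_d` eventually exceeds every computable
function. -/
theorem result :
    ∀ d : ℕ, 3 ≤ d → ∀ f : ℕ → ℕ, Computable f →
      ∀ᶠ r in Filter.atTop, f r < (maxMinDiam d r).toNat :=
  U.eventually_lt

/-- The question as posed, from `result` with `d = 3` and `f r = C * r`: for every `C` the ratio
`M_d(r) / r` exceeds `C` for all large `r`. -/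
theorem posed :
    ∃ d : ℕ, 1 ≤ d ∧ ∀ C : ℕ, ∀ᶠ r in Filter.atTop, C * r < (maxMinDiam d r).toNat :=
  ⟨3, by norm_num, fun C => result 3 (by norm_num) (fun r => C * r)
    (Primrec.nat_mul.to_comp.comp (Computable.const C) Computable.id)⟩

end Pool.Agent.Results.MP_fed0c4_co.Uncomputable
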